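import Pool.Agent.Helper23_LAP.Stmts
import Pool.Agent.Helper23_LAP.Basic

/-!
# LAP: module CHG
-/

set_option autoImplicit false

namespace Pool.Agent.LAP.H81

open scoped Classical

/-- a sum over `B'` minus a sum over `B` -/
theorem sum_diff_le {ι : Type} (f : ι → ℝ) (m : ℝ) (hf : ∀ i, |f i| ≤ m) (B B' : Finset ι) :
    |∑ i ∈ B', f i - ∑ i ∈ B, f i| ≤ m * ((symmDiff B B').card : ℝ) := by
  have h1 : ∑ i ∈ B', f i = ∑ i ∈ B' \ B, f i + ∑ i ∈ B ∩ B', f i := by
    rw [← Finset.sum_sdiff (Finset.inter_subset_right : B ∩ B' ⊆ B')]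
    congr 2
    ext x
    simp only [Finset.mem_sdiff, Finset.mem_inter]
    tauto
  have h2 : ∑ i ∈ B, f i = ∑ i ∈ B \ B', f i + ∑ i ∈ B ∩ B', f i := by
    rw [← Finset.sum_sdiff (Finset.inter_subset_left : B ∩ B' ⊆ B)]
    congr 2
    ext x
    simp only [Finset.mem_sdiff, Finset.mem_inter]
    tauto
  have h3 : ∀ C : Finset ι, |∑ i ∈ C, f i| ≤ m * (C.card : ℝ) := by
    intro C
    refine (Finset.abs_sum_le_sum_abs _ _).trans ?_
    refine (Finset.sum_le_sum fun i _ => hf i).trans ?_
    rw [Finset.sum_const, nsmul_eq_mul, mul_comm]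
  have h4 : (symmDiff B B').card = (B \ B').card + (B' \ B).card := by
    rw [symmDiff_def, Finset.sup_eq_union, Finset.card_union_of_disjoint]
    rw [Finset.disjoint_left]
    intro x hx hx'
    rw [Finset.mem_sdiff] at hx hx'
    exact hx.2 hx'.1
  rw [h1, h2, h4]
  have h5 : ∑ i ∈ B' \ B, f i + ∑ i ∈ B ∩ B', f i - (∑ i ∈ B \ B', f i + ∑ i ∈ B ∩ B', f i) =
      ∑ i ∈ B' \ B, f i - ∑ i ∈ B \ B', f i := by ring
  rw [h5]
  refine (abs_sub _ _).trans ?_
  have h6 := h3 (B' \ B)
  have h7 := h3 (B \ B')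
  push_cast
  linarith

/-- **CHG** -/
theorem chg (hM : MODStmt) : CHGStmt := by
  intro α β _ _ E R X Y D δ A A' B B' hD hδ hCl hA hA' hB hB'
  have hout : ∀ x, ((out R x ∩ Y).card : ℝ) ≤ (1 + δ) * D := by
    intro x
    refine le_trans ?_ (hCl.ou x)
    refine Nat.cast_le.2 (Finset.card_le_card ?_)
    intro y hy
    rw [Finset.mem_inter, mem_out] at hy ⊢
    exact ⟨hCl.sub hy.1, hy.2⟩
  have hinn : ∀ y, ((inn R y ∩ X).card : ℝ) ≤ (1 + δ) * D := by
    intro y
    refine le_trans ?_ (hCl.iu y)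
    refine Nat.cast_le.2 (Finset.card_le_card ?_)
    intro x hx
    rw [Finset.mem_inter, mem_inn] at hx ⊢
    exact ⟨hCl.sub hx.1, hx.2⟩
  constructor
  · rw [hM α β R X Y D A' B', hM α β R X Y D A B]
    have e1 : Y ∩ B' = B' := Finset.inter_eq_right.2 hB'
    have e2 : Y ∩ B = B := Finset.inter_eq_right.2 hB
    have e3 : X ∩ A' = A' := Finset.inter_eq_right.2 hA'
    have e4 : X ∩ A = A := Finset.inter_eq_right.2 hA
    rw [e1, e2, e3, e4]
    have h1 := sum_diff_le (fun y => ((inn R y ∩ X).card : ℝ) - D) (δ * D) (by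
      intro y
      rw [abs_le]
      have := hinn y
      have := hCl.il y
      constructor <;> nlinarith) B B'
    have h2 := sum_diff_le (fun x => ((out R x ∩ Y).card : ℝ) - D) (δ * D) (by
      intro x
      rw [abs_le]
      have := hout x
      have := hCl.ol x
      constructor <;> nlinarith) A A'
    rw [abs_le] at h1 h2 ⊢
    constructor <;> nlinarith [h1.1, h1.2, h2.1, h2.2]
  · have hsub : crs R X Y A' B' ⊆ crs R X Y A B ∪
        (((symmDiff A A').biUnion fun x => (out R x ∩ Y).image fun y => (x, y)) ∪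
          ((symmDiff B B').biUnion fun y => (inn R y ∩ X).image fun x => (x, y))) := by
      intro a ha
      rw [Finset.mem_union, Finset.mem_union]
      have hs := crs_sub _ _ _ _ _ ha
      by_cases h1 : a.1 ∈ symmDiff A A'
      · right; left
        rw [Finset.mem_biUnion]
        refine ⟨a.1, h1, ?_⟩
        rw [Finset.mem_image]
        exact ⟨a.2, by rw [Finset.mem_inter, mem_out]; exact ⟨hs.1, hs.2.2⟩, rfl⟩
      · by_cases h2 : a.2 ∈ symmDiff B B'
        · right; right
          rw [Finset.mem_biUnion]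
          refine ⟨a.2, h2, ?_⟩
          rw [Finset.mem_image]
          exact ⟨a.1, by rw [Finset.mem_inter, mem_inn]; exact ⟨hs.1, hs.2.1⟩, rfl⟩
        · left
          rw [Finset.mem_symmDiff] at h1 h2
          rw [mem_crs, mem_ain, mem_aou] at ha ⊢
          tauto
    have hc1 : ((((symmDiff A A').biUnion fun x => (out R x ∩ Y).image fun y => (x, y))).card : ℝ)
        ≤ (1 + δ) * D * (symmDiff A A').card := by
      have h1 : (((symmDiff A A').biUnion fun x => (out R x ∩ Y).image fun y => (x, y))).card ≤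
          ∑ x ∈ symmDiff A A', (out R x ∩ Y).card :=
        Finset.card_biUnion_le.trans (Finset.sum_le_sum fun x _ => Finset.card_image_le)
      calc ((((symmDiff A A').biUnion fun x => (out R x ∩ Y).image fun y => (x, y))).card : ℝ)
          ≤ ((∑ x ∈ symmDiff A A', (out R x ∩ Y).card : ℕ) : ℝ) := Nat.cast_le.2 h1
        _ = ∑ x ∈ symmDiff A A', ((out R x ∩ Y).card : ℝ) := by push_cast; rfl
        _ ≤ ∑ x ∈ symmDiff A A', (1 + δ) * D := Finset.sum_le_sum fun x _ => hout x
        _ = (1 + δ) * D * (symmDiff A A').card := by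
            rw [Finset.sum_const, nsmul_eq_mul, mul_comm]
    have hc2 : ((((symmDiff B B').biUnion fun y => (inn R y ∩ X).image fun x => (x, y))).card : ℝ)
        ≤ (1 + δ) * D * (symmDiff B B').card := by
      have h1 : (((symmDiff B B').biUnion fun y => (inn R y ∩ X).image fun x => (x, y))).card ≤
          ∑ y ∈ symmDiff B B', (inn R y ∩ X).card :=
        Finset.card_biUnion_le.trans (Finset.sum_le_sum fun y _ => Finset.card_image_le)
      calc ((((symmDiff B B').biUnion fun y => (inn R y ∩ X).image fun x => (x, y))).card : ℝ)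
          ≤ ((∑ y ∈ symmDiff B B', (inn R y ∩ X).card : ℕ) : ℝ) := Nat.cast_le.2 h1
        _ = ∑ y ∈ symmDiff B B', ((inn R y ∩ X).card : ℝ) := by push_cast; rfl
        _ ≤ ∑ y ∈ symmDiff B B', (1 + δ) * D := Finset.sum_le_sum fun y _ => hinn y
        _ = (1 + δ) * D * (symmDiff B B').card := by
            rw [Finset.sum_const, nsmul_eq_mul, mul_comm]
    have h3 := (Finset.card_le_card hsub).trans ((Finset.card_union_le _ _).trans
      (Nat.add_le_add_left (Finset.card_union_le _ _) _))
    have h4 : ((crs R X Y A' B').card : ℝ) ≤ (crs R X Y A B).card +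
        ((((symmDiff A A').biUnion fun x => (out R x ∩ Y).image fun y => (x, y))).card +
        (((symmDiff B B').biUnion fun y => (inn R y ∩ X).image fun x => (x, y))).card) := by
      exact_mod_cast h3
    linarith

end Pool.Agent.LAP.H81
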