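import Pool.Agent.Helper23_LAP.Stmts
import Pool.Agent.Helper81_LAY.Cnt

/-!
# LAP: module CNT
-/

set_option autoImplicit false

namespace Pool.Agent.LAP.H81

open scoped Classical

/-- the two forms of linked sets -/
theorem con_iff {W : Type} (r : W → W → Prop) (Z : Finset W) :
    Con r Z ↔ Pool.Agent.LAY.H81.Lnk r Z := by
  constructor
  · rintro ⟨h1, h2⟩
    refine ⟨h1, fun a ha b hb => ?_⟩
    have h := h2 a ha b hb
    have : ∀ c, Relation.ReflTransGen (fun a b => b ∈ Z ∧ r a b) a c →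
        c ∈ Z ∧ Relation.ReflTransGen (fun x y => x ∈ Z ∧ y ∈ Z ∧ r x y) a c := by
      intro c hc
      induction hc with
      | refl => exact ⟨ha, Relation.ReflTransGen.refl⟩
      | tail _ hst ih => exact ⟨hst.1, ih.2.tail ⟨ih.1, hst.1, hst.2⟩⟩
    exact (this b h).2
  · rintro ⟨h1, h2⟩
    refine ⟨h1, fun a ha b hb => ?_⟩
    have h := h2 a ha b hb
    induction h with
    | refl => exact Relation.ReflTransGen.refl
    | tail _ hst ih => exact (ih hst.1).tail ⟨hst.2.1, hst.2.2⟩

/-- **CNT** -/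
theorem cnt : CNTStmt := by
  intro W _ r d s w hsymm hd1 hd
  have h := Pool.Agent.LAY.H81.cnt r hsymm d hd1 (fun u => by
    have := hd u
    convert this) w s
  refine le_trans (Finset.card_le_card ?_) h
  intro Z hZ
  simp only [Finset.mem_filter, Finset.mem_univ, true_and] at hZ ⊢
  exact ⟨(con_iff r Z).1 hZ.2.2, hZ.1, hZ.2.1⟩

end Pool.Agent.LAP.H81
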