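import Pool.Agent.Helper81_LAP.Cnt
import Pool.Agent.Helper81_LAY.SLL

/-!
# LAP: module SLL
-/

set_option autoImplicit false

namespace Pool.Agent.LAP.H81

open scoped Classical

theorem nr1_symm {W : Type} {r : W → W → Prop} (hr : ∀ u v, r u v → r v u) {u v : W}
    (h : nr1 r u v) : nr1 r v u := by
  rcases h with rfl | h
  · exact Or.inl rfl
  · exact Or.inr (hr _ _ h)

theorem nr3_symm {W : Type} {r : W → W → Prop} (hr : ∀ u v, r u v → r v u) {u v : W}
    (h : nr3 r u v) : nr3 r v u := by
  obtain ⟨a, b, h1, h2, h3⟩ := h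
  exact ⟨b, a, nr1_symm hr h3, nr1_symm hr h2, nr1_symm hr h1⟩

/-- the balls of radius 3 -/
theorem nr3_card {W : Type} [Fintype W] (r : W → W → Prop) (k : ℕ) (hk : 2 ≤ k)
    (hd : ∀ u, (Finset.univ.filter (r u)).card ≤ k) (u : W) :
    (Finset.univ.filter (nr3 r u)).card ≤ k ^ 4 := by
  set N : W → Finset W := fun v => Finset.univ.filter (r v) with hN
  have hN2 : ∀ v, ((N v).biUnion N).card ≤ k * k := fun v =>
    (Finset.card_biUnion_le_card_mul _ _ k fun w _ => hd w).trans (Nat.mul_le_mul_right _ (hd v))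
  have hN3 : ((N u).biUnion fun v => (N v).biUnion N).card ≤ k * (k * k) :=
    (Finset.card_biUnion_le_card_mul _ _ (k * k) fun w _ => hN2 w).trans
      (Nat.mul_le_mul_right _ (hd u))
  have hsub : Finset.univ.filter (nr3 r u) ⊆
      (({u} ∪ N u) ∪ (N u).biUnion N) ∪ (N u).biUnion fun v => (N v).biUnion N := by
    intro w hw
    simp only [Finset.mem_filter, Finset.mem_univ, true_and] at hw
    obtain ⟨a, b, h1, h2, h3⟩ := hw
    simp only [hN, Finset.mem_union, Finset.mem_singleton, Finset.mem_filter, Finset.mem_univ,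
      true_and, Finset.mem_biUnion]
    rcases h1 with rfl | h1
    · rcases h2 with rfl | h2
      · rcases h3 with rfl | h3
        · exact Or.inl (Or.inl (Or.inl rfl))
        · exact Or.inl (Or.inl (Or.inr h3))
      · rcases h3 with rfl | h3
        · exact Or.inl (Or.inl (Or.inr h2))
        · exact Or.inl (Or.inr ⟨b, h2, h3⟩)
    · rcases h2 with rfl | h2
      · rcases h3 with rfl | h3
        · exact Or.inl (Or.inl (Or.inr h1))
        · exact Or.inl (Or.inr ⟨a, h1, h3⟩)
      · rcases h3 with rfl | h3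
        · exact Or.inl (Or.inr ⟨a, h1, h2⟩)
        · exact Or.inr ⟨a, h1, b, h2, h3⟩
  have hcard : (Finset.univ.filter (nr3 r u)).card ≤ 1 + k + k * k + k * (k * k) := by
    refine (Finset.card_le_card hsub).trans ?_
    refine (Finset.card_union_le _ _).trans (Nat.add_le_add ?_ hN3)
    refine (Finset.card_union_le _ _).trans (Nat.add_le_add ?_ (hN2 u))
    refine (Finset.card_union_le _ _).trans (Nat.add_le_add (by simp) (hd u))
  refine hcard.trans ?_
  have e1 : 2 * k ≤ k * k := Nat.mul_le_mul_right _ hk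
  have e2 : 2 * (k * k) ≤ k * (k * k) := Nat.mul_le_mul_right _ hk
  have e3 : 2 * (k * (k * k)) ≤ k * (k * (k * k)) := Nat.mul_le_mul_right _ hk
  have e4 : k ^ 4 = k * (k * (k * k)) := by ring
  rw [e4]
  omega

/-- **SLL** (without the hypothesis CNT) -/
theorem sll' : SLLStmt := by
  intro W U S κ _ _ _ _ _ r k L loc Bad hr hd hk hL hkL hloc hloc' hκ hev
  have h := Pool.Agent.LAY.H81.sll (W := W) (U := U) (A := S) (J := κ) k L hL hk hkL (nr3 r)
    (fun a b h => nr3_symm hr h) (fun w => by
      have := nr3_card r k hk hd w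
      convert this) loc hloc (fun w => by
        have := hloc' w
        convert this) hκ (fun j Q D => Finset.univ.filter fun ω => ω ∈ Bad j Q D)
    (by
      intro j Q D ω ω' hω hm
      simp only [Finset.mem_filter, Finset.mem_univ, true_and] at hm ⊢
      rcases hev j Q D with h0 | ⟨-, ⟨B, hB, hBl⟩, -⟩
      · rw [h0] at hm
        exact absurd hm (Set.notMem_empty _)
      · refine hB ω ω' (fun u hu => hω u ?_) hm
        obtain ⟨w, hw, z, hz, hwz⟩ := hBl u hu
        exact ⟨w, hw, z, by convert hz, nr3_symm hr hwz⟩)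
    (by
      intro j Q D hne
      rcases hev j Q D with h0 | ⟨hl, -, hp⟩
      · obtain ⟨ω, hω⟩ := hne
        simp only [Finset.mem_filter, Finset.mem_univ, true_and] at hω
        rw [h0] at hω
        exact absurd hω (Set.notMem_empty _)
      · refine ⟨?_, ?_⟩
        · have := (con_iff (nr3 r) (Q ∪ D)).1 hl
          convert this
        · have hpos : (0 : ℝ) < (Fintype.card (U → S) : ℝ) := by
            exact_mod_cast Fintype.card_pos
          unfold pr at hp
          rw [div_le_iff₀ hpos] at hp
          convert hp using 3)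
  obtain ⟨ω, hω⟩ := h
  refine ⟨ω, fun j Q D hm => hω j Q D ?_⟩
  simp only [Finset.mem_filter, Finset.mem_univ, true_and]
  exact hm

/-- **SLL** -/
theorem sll (_h : CNTStmt) : SLLStmt := sll'

end Pool.Agent.LAP.H81
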